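import Pool.Agent.Lib.MP_39893a_lc.AGL.Glue

/-!
# Equivalence of attribute grammars with inherited attributes of bounded Strahler number

`Tree`, `Ranked` and `strahler` are defined in `Pool.Agent.Lib.MP_39893a_lc.Defs`; `ht` (height),
`AG` (attribute grammars), `AG.Val` (the transduction), `AG.Noncircular` and `AG.InhBound` are
defined in the first part of `Pool.Agent.Lib.MP_39893a_lc.AGL.Defs`.
-/

set_option autoImplicit false

namespace Pool.Agent.Results.MP_39893a_lc.InheritedStrahler

open Pool.Agent.Lib.MP_39893a_lc Pool.Agent.Lib.MP_39893a_lc.AGL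

/-- The two attribute grammars agree on the input `s`. -/
def AgreeOn {A B : List ℕ} (G₁ G₂ : AG A B) (s : Tree) : Prop :=
  ∀ t, G₁.Val s t ↔ G₂.Val s t

/-- The height up to which inputs have to be tested, for attribute grammars with `p₁, p₂`
synthesized and `q₁, q₂` inherited attributes whose inherited attributes have values of Strahler
number at most `k`. -/
def testHeight (k p₁ q₁ p₂ q₂ : ℕ) : ℕ :=
  (k + 3) ^ (p₁ * (k + 3) ^ q₁) * (k + 3) ^ (p₂ * (k + 3) ^ q₂) *
    ((p₁ * (k + 3) ^ q₁ * (k + 1 + q₁ * ((k + 1) * (k + 1))) + 1) ^ p₁ +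
      (p₂ * (k + 3) ^ q₂ * (k + 1 + q₂ * ((k + 1) * (k + 1))) + 1) ^ p₂)

/-- A noncircular attribute grammar has exactly one output on every input (a check of the
definitions). -/
theorem existsUnique_val {A B : List ℕ} (G : AG A B) (hG : G.Noncircular) (s : Tree)
    (hs : Ranked A s) : ∃! t, G.Val s t := by
  obtain ⟨t, ht⟩ := Option.isSome_iff_exists.1 (specAgd A B G hG s hs).2
  have hval := FINGM.val_iff specAgs specAgd G hG s hs
  refine ⟨t, (hval t).1 ht, fun t' ht' => ?_⟩
  have h := (hval t').2 ht'
  rw [ht] at h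
  exact (Option.some.inj h).symm

/-- Two noncircular attribute grammars with the same alphabets all of whose inherited attributes
have values of Strahler number at most `k` are equivalent if and only if they agree on all inputs
of height at most `testHeight k p₁ q₁ p₂ q₂`. -/
theorem result (A B : List ℕ) (G₁ G₂ : AG A B) (k : ℕ)
    (h₁ : G₁.Noncircular) (h₂ : G₂.Noncircular) (hk₁ : G₁.InhBound k) (hk₂ : G₂.InhBound k) :
    (∀ s, Ranked A s → AgreeOn G₁ G₂ s) ↔
      ∀ s, Ranked A s → ht s ≤ testHeight k G₁.p G₁.q G₂.p G₂.q → AgreeOn G₁ G₂ s := by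
  refine ⟨fun h s hs _ => h s hs, fun h => ?_⟩
  refine finN A B G₁ G₂ k h₁ h₂ hk₁ hk₂ fun s hs hb => h s hs ?_
  exact hb

end Pool.Agent.Results.MP_39893a_lc.InheritedStrahler
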