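import Pool.Agent.Lib.MP_39893a_lc.OV.GlueB

/-!
# Equivalence of one-visit attribute grammars

`Tree` and `Ranked` are defined in `Pool.Agent.Lib.MP_39893a_lc.Defs`; `AG` (attribute grammars)
and `AG.Val` (the transduction) in `Pool.Agent.Lib.MP_39893a_lc.AGL.Defs`; `codeAG`, `ConstRoot`,
`VisitAt` in `Pool.Agent.Lib.MP_39893a_lc.ORD.Visit`; `SynAll`, `NarrowIn`, `Blocks` in
`Pool.Agent.Lib.MP_39893a_lc.OV.VisitsB`.
-/

set_option autoImplicit false

namespace Pool.Agent.Results.MP_39893a_lc.OneVisitGrammars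

open Pool.Agent.Lib.MP_39893a_lc Pool.Agent.Lib.MP_39893a_lc.AGL
  Pool.Agent.Lib.MP_39893a_lc.ORD Pool.Agent.Lib.MP_39893a_lc.OV

/-- The two attribute grammars are equivalent. -/
def Equivalent {A B : List ℕ} (G₁ G₂ : AG A B) : Prop :=
  ∀ s, Ranked A s → ∀ t, G₁.Val s t ↔ G₂.Val s t

/-- Compatible one-visit grammars: the inherited attributes at the root are constants, and for each
symbol `σ` the grammars are one-visit at `σ` with orders `ρ₁`, `ρ₂` of the children, and there is a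
partition of the children in blocks (the sets where `π` is constant), which are intervals of both
orders and come in the same order in both, such that both grammars are narrow in the blocks. -/
def Compatible {A B : List ℕ} (G₁ G₂ : AG A B) : Prop :=
  ConstRoot G₁ ∧ ConstRoot G₂ ∧ ∀ σ < A.length, ∃ ρ₁ ρ₂ π : ℕ → ℕ,
    Function.Injective ρ₁ ∧ Function.Injective ρ₂ ∧ VisitAt G₁ σ ρ₁ ∧ VisitAt G₂ σ ρ₂ ∧
      Blocks π ρ₁ ∧ Blocks π ρ₂ ∧ NarrowIn G₁ σ π ∧ NarrowIn G₂ σ π

/-- There is a partial computable `F` which decides the equivalence of two compatible one-visit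
attribute grammars. -/
theorem result :
    ∃ F : List ℕ × List ℕ × CodeAG × CodeAG →. Bool, Partrec F ∧
      ∀ (A B : List ℕ) (G₁ G₂ : AG A B), Compatible G₁ G₂ →
        (true ∈ F (A, B, codeAG G₁, codeAG G₂) ↔ Equivalent G₁ G₂) ∧
        (false ∈ F (A, B, codeAG G₁, codeAG G₂) ↔ ¬ Equivalent G₁ G₂) :=
  gMAINAB

/-- One-visit, with any order of the children for each symbol. -/
def OneVisit {A B : List ℕ} (G : AG A B) : Prop :=
  ConstRoot G ∧ ∀ σ < A.length, ∃ ρ : ℕ → ℕ, Function.Injective ρ ∧ VisitAt G σ ρ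

/-- Blocks with one child. -/
theorem narrowIn_of_visitAt {A B : List ℕ} {G : AG A B} {σ : ℕ} {ρ : ℕ → ℕ} (h : VisitAt G σ ρ) :
    NarrowIn G σ ρ := by
  refine Or.inl ⟨fun _ => 0, fun r i b hr hi => ?_⟩
  have hv := h r i b hr hi
  revert hv
  induction G.inh σ i b with
  | syn a j => exact fun hv he => absurd he (Nat.ne_of_lt hv)
  | inh b => exact fun _ => trivial
  | out f n c ih => exact fun hv l => ih l (hv l)

/-- Grammars with at most one synthesized or at most one inherited attribute are narrow. -/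
theorem narrowIn_of_le {A B : List ℕ} (G : AG A B) (h : G.p ≤ 1 ∨ G.q ≤ 1) (σ : ℕ) (π : ℕ → ℕ) :
    NarrowIn G σ π := by
  rcases h with h | h
  · refine Or.inl ⟨fun _ => 0, fun r i b _ _ => ?_⟩
    induction G.inh σ i b with
    | syn a j => exact fun _ => Nat.lt_one_iff.1 (lt_of_lt_of_le a.2 h)
    | inh b => trivial
    | out f n c ih => exact fun l => ih l
  · exact Or.inr ⟨fun _ => 0, fun _ _ b _ _ hb => absurd (Nat.lt_one_iff.1 (lt_of_lt_of_le b.2 h)) hb⟩

/-- One-visit grammars each of which has at most one synthesized attribute or at most one inherited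
attribute are compatible, whatever their visiting orders are. -/
theorem compatible_of_one {A B : List ℕ} {G₁ G₂ : AG A B} (h₁ : OneVisit G₁) (h₂ : OneVisit G₂)
    (k₁ : G₁.p ≤ 1 ∨ G₁.q ≤ 1) (k₂ : G₂.p ≤ 1 ∨ G₂.q ≤ 1) : Compatible G₁ G₂ := by
  refine ⟨h₁.1, h₂.1, fun σ hσ => ?_⟩
  obtain ⟨ρ₁, i₁, v₁⟩ := h₁.2 σ hσ
  obtain ⟨ρ₂, i₂, v₂⟩ := h₂.2 σ hσ
  exact ⟨ρ₁, ρ₂, fun _ => 0, i₁, i₂, v₁, v₂, fun _ _ h => absurd h (lt_irrefl _),
    fun _ _ h => absurd h (lt_irrefl _), narrowIn_of_le G₁ k₁ σ _, narrowIn_of_le G₂ k₂ σ _⟩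

/-- One-visit grammars with the same orders are compatible. -/
theorem compatible_of_coVisit {A B : List ℕ} {G₁ G₂ : AG A B} (h : CoVisit G₁ G₂) :
    Compatible G₁ G₂ :=
  ⟨h.1, h.2.1, fun σ hσ => by
    obtain ⟨ρ, hρ, v₁, v₂⟩ := h.2.2 σ hσ
    exact ⟨ρ, ρ, ρ, hρ, hρ, v₁, v₂, fun _ _ h => h, fun _ _ h => h, narrowIn_of_visitAt v₁,
      narrowIn_of_visitAt v₂⟩⟩

/-- L-attributed grammars are compatible. -/
theorem compatible_of_lAttributed {A B : List ℕ} {G₁ G₂ : AG A B} (h₁ : LAttributed G₁)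
    (h₂ : LAttributed G₂) : Compatible G₁ G₂ :=
  compatible_of_coVisit ⟨h₁.1, h₂.1, fun σ hσ => ⟨id, Function.injective_id, h₁.2 σ hσ, h₂.2 σ hσ⟩⟩

end Pool.Agent.Results.MP_39893a_lc.OneVisitGrammars
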