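import Pool.Agent.Lib.MP_39893a_lc.ORD.Glue

/-!
# Equivalence of ordered macro tree transducers

`Tree`, `Ranked`, `DMTT` (deterministic macro tree transducers), `DMTT.tau` (the partial function
realised, outside-in) and `DMTT.code` (the finite code of a transducer) are defined in
`Pool.Agent.Lib.MP_39893a_lc.Defs`; `CoOrdered` is defined in
`Pool.Agent.Lib.MP_39893a_lc.ORD.Order`.
-/

set_option autoImplicit false

namespace Pool.Agent.Results.MP_39893a_lc.OrderedMacroTransducers

open Pool.Agent.Lib.MP_39893a_lc

/-- The two transducers are equivalent. -/
def Equivalent {A B : List ℕ} (M₁ M₂ : DMTT A B) : Prop :=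
  ∀ s, Ranked A s → M₁.tau s = M₂.tau s

/-- There is a partial computable `F` such that, for all deterministic macro tree transducers
`M₁, M₂` over the same ranked alphabets: if `F` answers `true`, they are equivalent; `F` answers
`false` if and only if they are not equivalent; and `F` answers if the transducers are co-ordered
(for each input symbol there is a linear order of the subtrees, common to both transducers, such
that the calls in the arguments of a call on a subtree are on smaller subtrees). So equivalence is
decidable for co-ordered pairs. -/
theorem result :
    ∃ F : List ℕ × List ℕ × Code × Code →. Bool, Partrec F ∧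
      ∀ (A B : List ℕ) (M₁ M₂ : DMTT A B),
        (true ∈ F (A, B, M₁.code, M₂.code) → Equivalent M₁ M₂) ∧
        (false ∈ F (A, B, M₁.code, M₂.code) ↔ ¬ Equivalent M₁ M₂) ∧
        (CoOrdered M₁ M₂ → (F (A, B, M₁.code, M₂.code)).Dom) :=
  ORD.gMAIN

end Pool.Agent.Results.MP_39893a_lc.OrderedMacroTransducers
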