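import Pool.Agent.Lib.MP_39893a_lc.Final

/-!
# Equivalence of deterministic macro tree transducers up to thin divergence

`Tree`, `Ranked`, `Rhs`, `DMTT`, `DMTT.tau`, `Code` and `DMTT.code` are defined in
`Pool.Agent.Lib.MP_39893a_lc.Defs`, `dstr`, the Strahler number of the minimal DAG of a tree, in
`Pool.Agent.Lib.MP_39893a_lc.Dag` (it is at most the Strahler number of the tree,
`dstr_le_strahler` there), and `Thin` in `Pool.Agent.Lib.MP_39893a_lc.Thin`.
-/

set_option autoImplicit false

namespace Pool.Agent.Results.MP_39893a_lc.ThinDivergence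

open Pool.Agent.Lib.MP_39893a_lc

/-- The two transducers realise the same partial function on the trees over the input
alphabet. -/
def Equivalent {A B : List ℕ} (M₁ M₂ : DMTT A B) : Prop :=
  ∀ s, Ranked A s → M₁.tau s = M₂.tau s

/-- The two transducers have the same domain, and they agree on every input for which the
divergence of the two outputs is thin at level `k`. -/
def AgreeUpTo {A B : List ℕ} (k : ℕ) (M₁ M₂ : DMTT A B) : Prop :=
  ∀ s, Ranked A s → ((M₁.tau s).isSome = (M₂.tau s).isSome) ∧
    ∀ t₁ t₂, M₁.tau s = some t₁ → M₂.tau s = some t₂ → Thin k t₁ t₂ → t₁ = t₂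

/-- There is one computable function `D` of `k` and two deterministic macro tree transducers with
the same alphabets such that: if the transducers are equivalent, the answer is `true`; if the
answer is `true`, they have the same domain and agree on every input for which the divergence of
the two outputs is thin at level `k`. So `D` decides equivalence if the divergence of the outputs
is thin at level `k` for all inputs, in particular if the minimal DAGs of all outputs of the
first transducer have Strahler number at most `k`, and two arbitrary transducers are equivalent if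
and only if the answer is `true` for all `k`. -/
theorem result :
    ∃ D : ℕ × List ℕ × List ℕ × Code × Code → Bool, Computable D ∧
      ∀ (A B : List ℕ) (M₁ M₂ : DMTT A B),
        (∀ k, D (k, A, B, M₁.code, M₂.code) = true → AgreeUpTo k M₁ M₂) ∧
        (∀ k, (∀ s t₁ t₂, Ranked A s → M₁.tau s = some t₁ → M₂.tau s = some t₂ →
            Thin k t₁ t₂) →
          (D (k, A, B, M₁.code, M₂.code) = true ↔ Equivalent M₁ M₂)) ∧
        (∀ k, (∀ s t, Ranked A s → M₁.tau s = some t → dstr t ≤ k) →
          (D (k, A, B, M₁.code, M₂.code) = true ↔ Equivalent M₁ M₂)) ∧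
        (Equivalent M₁ M₂ ↔ ∀ k, D (k, A, B, M₁.code, M₂.code) = true) := by
  obtain ⟨D, hD, h⟩ := main
  refine ⟨D, hD, fun A B M₁ M₂ => ?_⟩
  have h1 : ∀ k, D (k, A, B, M₁.code, M₂.code) = true → AgreeUpTo k M₁ M₂ :=
    fun k => (h A B M₁ M₂ k).2
  have h2 : Equivalent M₁ M₂ → ∀ k, D (k, A, B, M₁.code, M₂.code) = true :=
    fun he k => (h A B M₁ M₂ k).1 he
  have h3 : ∀ k, (∀ s t₁ t₂, Ranked A s → M₁.tau s = some t₁ → M₂.tau s = some t₂ →
      Thin k t₁ t₂) → (D (k, A, B, M₁.code, M₂.code) = true ↔ Equivalent M₁ M₂) := by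
    refine fun k hk => ⟨fun hD s hs => ?_, fun he => h2 he k⟩
    obtain ⟨hdom, heq⟩ := h1 k hD s hs
    cases e1 : M₁.tau s with
    | none =>
      rw [e1] at hdom
      cases e2 : M₂.tau s with
      | none => rfl
      | some t => rw [e2] at hdom; simp at hdom
    | some t₁ =>
      rw [e1] at hdom
      cases e2 : M₂.tau s with
      | none => rw [e2] at hdom; simp at hdom
      | some t₂ => rw [heq t₁ t₂ e1 e2 (hk s t₁ t₂ hs e1 e2)]
  refine ⟨h1, h3, fun k hk => h3 k fun s t₁ t₂ hs e1 _ => .low (Or.inl (hk s t₁ hs e1)), h2,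
    fun hall s hs => ?_⟩
  cases e1 : M₁.tau s with
  | none =>
    obtain ⟨hdom, _⟩ := h1 0 (hall 0) s hs
    rw [e1] at hdom
    cases e2 : M₂.tau s with
    | none => rfl
    | some t => rw [e2] at hdom; simp at hdom
  | some t₁ =>
    obtain ⟨hdom, heq⟩ := h1 (dstr t₁) (hall _) s hs
    rw [e1] at hdom
    cases e2 : M₂.tau s with
    | none => rw [e2] at hdom; simp at hdom
    | some t₂ => rw [heq t₁ t₂ e1 e2 (.low (Or.inl le_rfl))]

end Pool.Agent.Results.MP_39893a_lc.ThinDivergence
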